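import Pool.Agent.Q120.NB.Stm

set_option autoImplicit false

/-!
# Project NB: the upper bound in mean square
-/

namespace Pool.Agent.Q26.NB

open Complex MeasureTheory Filter Topology Set
open Pool.Agent.Q120.NB

theorem t_UP (hMEL : J_MEL) (hPER : J_PER) (hZB : J_ZB) : J_UP := by
  intro θ hθ hz σ ε h1 h2 hε
  have hσh : 1 / 2 < σ := by linarith
  have hσ0 : 0 < σ := by linarith
  obtain ⟨e, he0, he1, he2⟩ : ∃ e : ℝ, 0 < e ∧ 2 * e ≤ ε ∧ 2 * (1 - σ) + 2 * e < 1 := by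
    refine ⟨min (ε / 2) ((2 * σ - 1) / 4), ?_, ?_, ?_⟩
    · have : 0 < (2 * σ - 1) / 4 := by linarith
      positivity
    · have := min_le_left (ε / 2) ((2 * σ - 1) / 4)
      linarith
    · have := min_le_right (ε / 2) ((2 * σ - 1) / 4)
      linarith
  obtain ⟨C1, hC1, hP⟩ := hPER θ hθ hz σ e h1 h2 he0
  obtain ⟨C2, hC2, hZ⟩ := hZB σ hσh h2
  set r : ℝ := 2 - (2 * (1 - σ) + 2 * e) with hr
  have hr1 : 1 < r := by rw [hr]; linarith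
  have hint : Integrable (fun t : ℝ => (1 + |t|) ^ (-r)) := by
    have := integrable_one_add_norm (E := ℝ) (μ := volume) (r := r) (by simpa using hr1)
    simpa using this
  set J : ℝ := ∫ t : ℝ, (1 + |t|) ^ (-r) with hJ
  have hJ0 : 0 ≤ J := integral_nonneg fun t => by positivity
  refine ⟨(C1 * C2) ^ 2 * (2 / σ ^ 2) * J + 1, by positivity, fun N hN => ?_⟩
  have hN1 : (1 : ℝ) ≤ N := by exact_mod_cast hN
  have hN0 : (0 : ℝ) < N := by linarith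
  obtain ⟨-, hi, heq⟩ := hMEL σ hσ0 h2 N (mob N) hN
  rw [heq]
  have hpt : ∀ t : ℝ, ‖1 + riemannZeta (σ + t * I) *
      ∑ n ∈ Finset.Icc 1 N, mob N n * (n : ℂ) ^ (-((σ : ℂ) + t * I))‖ ^ 2 / (σ ^ 2 + t ^ 2) ≤
      ((C1 * C2) ^ 2 * (2 / σ ^ 2) * (N : ℝ) ^ (2 * (θ - σ) + 2 * e)) * (1 + |t|) ^ (-r) := by
    intro t
    set s : ℂ := (σ : ℂ) + t * I with hs
    have hre : s.re = σ := by simp [hs]
    have hz0 : riemannZeta s ≠ 0 := hz s (by rw [hre]; exact h1)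
    set S : ℂ := ∑ n ∈ Finset.Icc 1 N, ((ArithmeticFunction.moebius n : ℤ) : ℂ) * (1 - (n : ℂ) / (N : ℂ)) *
      (n : ℂ) ^ (-s) with hS
    have e1 : ∑ n ∈ Finset.Icc 1 N, mob N n * (n : ℂ) ^ (-s) = -S := by
      rw [hS, ← Finset.sum_neg_distrib]
      refine Finset.sum_congr rfl fun n _ => ?_
      unfold mob
      ring
    have e2 : 1 + riemannZeta s * ∑ n ∈ Finset.Icc 1 N, mob N n * (n : ℂ) ^ (-s) =
        -(riemannZeta s * (S - (riemannZeta s)⁻¹)) := by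
      rw [e1, mul_sub, mul_inv_cancel₀ hz0]
      ring
    have k1 := hP N t hN
    have k2 := hZ t
    rw [← hs] at k1 k2
    have ht0 : (0 : ℝ) < 1 + |t| := by positivity
    have k3 : ‖1 + riemannZeta s * ∑ n ∈ Finset.Icc 1 N, mob N n * (n : ℂ) ^ (-s)‖ ≤
        (C1 * C2) * (N : ℝ) ^ (θ - σ + e) * (1 + |t|) ^ (1 - σ + e) := by
      rw [e2, norm_neg, norm_mul]
      calc ‖riemannZeta s‖ * ‖S - (riemannZeta s)⁻¹‖ ≤
          (C2 * (1 + |t|) ^ (1 - σ)) * (C1 * (N : ℝ) ^ (θ - σ + e) * (1 + |t|) ^ e) :=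
            mul_le_mul k2 k1 (norm_nonneg _) (by positivity)
        _ = _ := by rw [Real.rpow_add ht0]; ring
    have k4 : ‖1 + riemannZeta s * ∑ n ∈ Finset.Icc 1 N, mob N n * (n : ℂ) ^ (-s)‖ ^ 2 ≤
        (C1 * C2) ^ 2 * (N : ℝ) ^ (2 * (θ - σ) + 2 * e) * ((1 + |t|) ^ 2 * (1 + |t|) ^ (-r)) := by
      refine (pow_le_pow_left₀ (norm_nonneg _) k3 2).trans (le_of_eq ?_)
      rw [mul_pow, mul_pow, ← Real.rpow_natCast ((N : ℝ) ^ (θ - σ + e)), ← Real.rpow_mul hN0.le,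
        ← Real.rpow_natCast ((1 + |t|) ^ (1 - σ + e)), ← Real.rpow_mul ht0.le]
      have e3 : (1 + |t|) ^ 2 * (1 + |t|) ^ (-r) = (1 + |t|) ^ ((1 - σ + e) * ((2 : ℕ) : ℝ)) := by
        rw [← Real.rpow_natCast (1 + |t|) 2, ← Real.rpow_add ht0]
        congr 1
        rw [hr]
        push_cast
        ring
      rw [e3]
      congr 3
      push_cast
      ring
    have k5 : (1 + |t|) ^ 2 ≤ 2 / σ ^ 2 * (σ ^ 2 + t ^ 2) := by
      have h3 : (1 + |t|) ^ 2 ≤ 2 * (1 + t ^ 2) := by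
        rw [← sq_abs t]
        nlinarith [sq_nonneg (|t| - 1)]
      have h4 : 2 / σ ^ 2 * (σ ^ 2 + t ^ 2) = 2 * (1 + t ^ 2 / σ ^ 2) := by field_simp
      have h5 : t ^ 2 ≤ t ^ 2 / σ ^ 2 := by
        rw [le_div_iff₀ (by positivity)]
        have : σ ^ 2 ≤ 1 := by nlinarith
        nlinarith [sq_nonneg t]
      rw [h4]
      linarith
    rw [div_le_iff₀ (by positivity)]
    refine k4.trans ?_
    have h6 : 0 ≤ (1 + |t|) ^ (-r) := by positivity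
    have h7 : 0 ≤ (C1 * C2) ^ 2 * (N : ℝ) ^ (2 * (θ - σ) + 2 * e) := by positivity
    calc (C1 * C2) ^ 2 * (N : ℝ) ^ (2 * (θ - σ) + 2 * e) * ((1 + |t|) ^ 2 * (1 + |t|) ^ (-r)) ≤
        (C1 * C2) ^ 2 * (N : ℝ) ^ (2 * (θ - σ) + 2 * e) * ((2 / σ ^ 2 * (σ ^ 2 + t ^ 2)) * (1 + |t|) ^ (-r)) :=
          mul_le_mul_of_nonneg_left (mul_le_mul_of_nonneg_right k5 h6) h7
      _ = _ := by ring
  have hI : ∫ t : ℝ, ‖1 + riemannZeta (σ + t * I) *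
      ∑ n ∈ Finset.Icc 1 N, mob N n * (n : ℂ) ^ (-((σ : ℂ) + t * I))‖ ^ 2 / (σ ^ 2 + t ^ 2) ≤
      ((C1 * C2) ^ 2 * (2 / σ ^ 2) * (N : ℝ) ^ (2 * (θ - σ) + 2 * e)) * J := by
    rw [hJ, ← integral_const_mul]
    exact integral_mono hi (hint.const_mul _) hpt
  have hI0 : 0 ≤ ∫ t : ℝ, ‖1 + riemannZeta (σ + t * I) *
      ∑ n ∈ Finset.Icc 1 N, mob N n * (n : ℂ) ^ (-((σ : ℂ) + t * I))‖ ^ 2 / (σ ^ 2 + t ^ 2) :=
    integral_nonneg fun t => by positivity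
  have hNe : (N : ℝ) ^ (2 * (θ - σ) + 2 * e) ≤ (N : ℝ) ^ (2 * (θ - σ) + ε) :=
    Real.rpow_le_rpow_of_exponent_le hN1 (by linarith)
  have hpi : 1 / (2 * Real.pi) ≤ 1 := by
    rw [div_le_one (by positivity)]
    linarith [Real.pi_gt_three]
  calc 1 / (2 * Real.pi) * ∫ t : ℝ, ‖1 + riemannZeta (σ + t * I) *
      ∑ n ∈ Finset.Icc 1 N, mob N n * (n : ℂ) ^ (-((σ : ℂ) + t * I))‖ ^ 2 / (σ ^ 2 + t ^ 2) ≤
      1 * (((C1 * C2) ^ 2 * (2 / σ ^ 2) * (N : ℝ) ^ (2 * (θ - σ) + 2 * e)) * J) :=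
        mul_le_mul hpi hI hI0 zero_le_one
    _ = ((C1 * C2) ^ 2 * (2 / σ ^ 2) * J) * (N : ℝ) ^ (2 * (θ - σ) + 2 * e) := by ring
    _ ≤ ((C1 * C2) ^ 2 * (2 / σ ^ 2) * J + 1) * (N : ℝ) ^ (2 * (θ - σ) + ε) :=
        mul_le_mul (by linarith) hNe (by positivity) (by positivity)

end Pool.Agent.Q26.NB
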