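import Pool.Agent.Q120.NB.Stm
import Pool.Agent.H307R2.LU

set_option autoImplicit false

/-!
# Project NB: the trivial bound for zeta
-/

namespace Pool.Agent.Q26.NB

open Complex MeasureTheory Filter Topology Set

/-- `∑_{n ≤ N} n^(-σ) ≤ N^(1-σ) / (1-σ)` -/
lemma sum_rpow_le {σ : ℝ} (h0 : 0 < σ) (h1 : σ < 1) (N : ℕ) :
    ∑ n ∈ Finset.Icc 1 N, (n : ℝ) ^ (-σ) ≤ (N : ℝ) ^ (1 - σ) / (1 - σ) := by
  have h2 : 0 < 1 - σ := by linarith
  induction N with
  | zero =>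
    simp
    positivity
  | succ N ih =>
    rw [Finset.sum_Icc_succ_top (by omega)]
    have hN : (0 : ℝ) < ((N + 1 : ℕ) : ℝ) := by positivity
    have key : (N : ℝ) ^ (1 - σ) + (1 - σ) * ((N + 1 : ℕ) : ℝ) ^ (-σ) ≤ ((N + 1 : ℕ) : ℝ) ^ (1 - σ) := by
      set x : ℝ := ((N + 1 : ℕ) : ℝ) with hx
      have hx1 : 1 ≤ x := by rw [hx]; push_cast; linarith [Nat.cast_nonneg (α := ℝ) N]
      have e1 : (N : ℝ) = x * (1 + -(1 / x)) := by
        rw [hx]; push_cast; field_simp; ring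
      have hle : 1 / x ≤ 1 := by rw [div_le_one hN]; exact hx1
      have h3 := _root_.rpow_one_add_le_one_add_mul_self (s := -(1 / x)) (by linarith) h2.le (by linarith : 1 - σ ≤ 1)
      have h4 : (N : ℝ) ^ (1 - σ) = x ^ (1 - σ) * (1 + -(1 / x)) ^ (1 - σ) := by
        rw [e1, Real.mul_rpow hN.le (by linarith)]
      have h5 : x ^ (1 - σ) = x * x ^ (-σ) := by
        rw [sub_eq_add_neg, Real.rpow_add hN, Real.rpow_one]
      have h6 : 0 < x ^ (-σ) := Real.rpow_pos_of_pos hN _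
      rw [h4]
      have h7 : x ^ (1 - σ) * (1 + -(1 / x)) ^ (1 - σ) ≤ x ^ (1 - σ) * (1 + (1 - σ) * -(1 / x)) :=
        mul_le_mul_of_nonneg_left h3 (by positivity)
      have h8 : x ^ (1 - σ) * (1 + (1 - σ) * -(1 / x)) = x ^ (1 - σ) - (1 - σ) * x ^ (-σ) := by
        rw [h5]; field_simp; ring
      linarith
    rw [le_div_iff₀ h2]
    rw [le_div_iff₀ h2] at ih
    nlinarith

theorem t_ZB : Pool.Agent.Q120.NB.J_ZB := by
  intro σ h0 h1
  have hσ : 0 < σ := by linarith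
  have h2 : 0 < 1 - σ := by linarith
  refine ⟨2 / (1 - σ) + 2 / σ, by positivity, fun t => ?_⟩
  set s : ℂ := (σ : ℂ) + t * I with hs
  have hre : s.re = σ := by simp [hs]
  have him : s.im = t := by simp [hs]
  have hs1 : s ≠ 1 := by
    intro h
    have := congrArg Complex.re h
    rw [hre, Complex.one_re] at this
    linarith
  set N : ℕ := ⌊1 + |t|⌋₊ with hN
  have hnn : 0 ≤ 1 + |t| := by positivity
  have hN1 : 1 ≤ N := by
    rw [hN, Nat.one_le_floor_iff]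
    linarith [abs_nonneg t]
  have hN1' : (1 : ℝ) ≤ N := by exact_mod_cast hN1
  have hN0 : (0 : ℝ) < N := by linarith
  have hNle : (N : ℝ) ≤ 1 + |t| := Nat.floor_le hnn
  have hNlt : 1 + |t| < N + 1 := Nat.lt_floor_add_one _
  have hN2 : 1 + |t| ≤ 2 * N := by linarith
  rw [Pool.Agent.H307R2.zeta_eq hN1 (by rw [hre]; exact hσ) hs1]
  have n1 : ‖∑ n ∈ Finset.Icc 1 N, (n : ℂ) ^ (-s)‖ ≤ (N : ℝ) ^ (1 - σ) / (1 - σ) := by
    refine (norm_sum_le _ _).trans (le_trans (le_of_eq ?_) (sum_rpow_le hσ h1 N))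
    refine Finset.sum_congr rfl fun n hn => ?_
    rw [Finset.mem_Icc] at hn
    have hn0 : (0 : ℝ) < n := by exact_mod_cast hn.1
    have := Complex.norm_cpow_eq_rpow_re_of_pos hn0 (-s)
    rw [Complex.ofReal_natCast, Complex.neg_re, hre] at this
    exact this
  have n2 : ‖(N : ℂ) ^ (1 - s) / (s - 1)‖ ≤ (N : ℝ) ^ (1 - σ) / (1 - σ) := by
    rw [norm_div]
    have e1 := Complex.norm_cpow_eq_rpow_re_of_pos hN0 (1 - s)
    rw [Complex.ofReal_natCast, Complex.sub_re, Complex.one_re, hre] at e1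
    rw [e1]
    have e2 : 1 - σ ≤ ‖s - 1‖ := by
      have := Complex.abs_re_le_norm (s - 1)
      rw [Complex.sub_re, Complex.one_re, hre] at this
      have h3 : |σ - 1| = 1 - σ := by rw [abs_of_neg (by linarith)]; ring
      rwa [h3] at this
    exact div_le_div_of_nonneg_left (Real.rpow_nonneg hN0.le _) h2 e2
  have n3 : ‖s * Pool.Agent.H307R2.TM N Pool.Agent.H307R2.Ez s‖ ≤ 2 * (N : ℝ) ^ (1 - σ) / σ := by
    rw [norm_mul]
    have e1 := Pool.Agent.H307R2.TM_norm_le hN1 Pool.Agent.H307R2.Ez_norm_le (s := s) (by rw [hre]; exact hσ)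
    rw [hre, one_mul] at e1
    have e2 : ‖s‖ ≤ 2 * N := by
      have := Complex.norm_le_abs_re_add_abs_im s
      rw [hre, him, abs_of_pos hσ] at this
      linarith
    have e3 : (N : ℝ) ^ (1 - σ) = N * (N : ℝ) ^ (-σ) := by
      rw [sub_eq_add_neg, Real.rpow_add hN0, Real.rpow_one]
    calc ‖s‖ * ‖Pool.Agent.H307R2.TM N Pool.Agent.H307R2.Ez s‖ ≤ (2 * N) * ((N : ℝ) ^ (-σ) / σ) :=
          mul_le_mul e2 e1 (norm_nonneg _) (by positivity)
      _ = _ := by rw [e3]; ring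
  have hle : (N : ℝ) ^ (1 - σ) ≤ (1 + |t|) ^ (1 - σ) := Real.rpow_le_rpow hN0.le hNle h2.le
  calc ‖∑ n ∈ Finset.Icc 1 N, (n : ℂ) ^ (-s) + (N : ℂ) ^ (1 - s) / (s - 1) +
      s * Pool.Agent.H307R2.TM N Pool.Agent.H307R2.Ez s‖ ≤
      (N : ℝ) ^ (1 - σ) / (1 - σ) + (N : ℝ) ^ (1 - σ) / (1 - σ) + 2 * (N : ℝ) ^ (1 - σ) / σ :=
        (norm_add_le _ _).trans (add_le_add ((norm_add_le _ _).trans (add_le_add n1 n2)) n3)
    _ = (2 / (1 - σ) + 2 / σ) * (N : ℝ) ^ (1 - σ) := by ring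
    _ ≤ _ := mul_le_mul_of_nonneg_left hle (by positivity)

end Pool.Agent.Q26.NB
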